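import Mathlib
import Pool.Agent.Run7.h767.ST.Tht

/-!
# The Stickelberger element `Θ_(S,T)` by prime ideals

Let `K` be a number field (`F` on the page), `𝔣` an ideal, `0 ≠ 𝔣 ≠ 𝓞 K`, `P` a set of real embeddings
of `K`, `A` a homomorphism from the ray class group modulo `𝔣 P` to a finite commutative group `G`
(for an abelian extension `H` with the group `G` and the modulus `𝔣 P`: the Artin map), `S` the set of
the archimedean places and of the prime divisors of `𝔣`, and `T` a finite set of primes outside of `S`.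

(1) The Stickelberger function `Θ_(S,T)(s) ∈ ℂ[G]`, `χ(Θ(s)) = L_(S,T)(χ⁻¹, s)` for all the characters
`χ`, has a meromorphic continuation, analytic at `0`.

(2) For every `g ∈ G` and `γ > π / 2` the coefficient of `g` in the Stickelberger element
`Θ_(S,T) = Θ_(S,T)(0)` is

  `E_g(t) + O(1 / t)`,
  `E_g(t) = (1 / |G|) ∑_χ conj χ(g) ∏_(v ∈ T) (1 - χ⁻¹(v) N(v)) exp (∑_τ χ⁻¹(τ) S_τ(t))`,

  `S_τ(t) = ∑_(𝔭, k : A(𝔭 ^ k) = τ) (1 / k) e^(i γ u) / Γ(1 + u)`, `u = k log N(𝔭) / t`.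

This is unconditional; no continuation and no zeros occur on the right: the prime ideals, sorted by
their classes (Frobenius automorphisms), are counted with the weight `1` (the point `s = 0`).

(3) If `Θ_(S,T) = ∑ a_g g` with integers `a_g` (by the theorem of Deligne–Ribet and Cassou-Noguès this
is so in Q1; it is not proved here), then `a_g` is the integer nearest to the real part of `E_g(t)`, for
all `g` and all large `t`. For integers `a_g` one has `Θ_(S,T) = ∑ a_g g` if and only if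
`lim E_g(t) = a_g` for all `g`, along any filter `l ≤ atTop`, for example along one sequence.

In Q1 (Gross) this applies to `Θ^(L/F)_(S_𝔭,T)` (`G = 𝔤`, here `𝔣 ≠ 𝓞 K` holds since `𝔭 ∈ S_𝔭`) and to
`Θ^(H/F)_(S,T)`: `u` is a Brumer–Stark unit if and only if `lim E_g(t) = ord_𝔓(g⁻¹(u))` for all `g`.
-/

set_option autoImplicit false
set_option linter.unusedSectionVars false

namespace Pool.Agent.Results.MP_d2500c_nt.StickelbergerByPrimes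

open NumberField Filter Topology Asymptotics

section defs

variable {K : Type} [Field K] [NumberField K] {G : Type} [Group G]

/-- `x` is positive at the real embeddings in `P`. -/
def Pos (P : Set (K →+* ℝ)) (x : 𝓞 K) : Prop := ∀ σ ∈ P, 0 < σ (x : K)

/-- On the ideals prime to `𝔣` the function `A` is a homomorphism from the ray class group modulo
`𝔣 P` to `G` (its values at the other ideals are irrelevant). -/
structure IsRayHom (𝔣 : Ideal (𝓞 K)) (P : Set (K →+* ℝ)) (A : Ideal (𝓞 K) → G) : Prop where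
  mul : ∀ 𝔞 𝔟, IsCoprime 𝔞 𝔣 → IsCoprime 𝔟 𝔣 → A (𝔞 * 𝔟) = A 𝔞 * A 𝔟
  ray : ∀ x : 𝓞 K, x - 1 ∈ 𝔣 → Pos P x → A (Ideal.span {x}) = 1

/-- `∑_(𝔞 prime to 𝔣) χ(A(𝔞)) N(𝔞)^(-s) = ∏_(v ∤ 𝔣) (1 - χ(A(v)) N(v)^(-s))⁻¹`. -/
noncomputable def lser (𝔣 : Ideal (𝓞 K)) (A : Ideal (𝓞 K) → G) (χ : G →* ℂˣ) (s : ℂ) : ℂ :=
  ∑' 𝔞 : {𝔞 : Ideal (𝓞 K) // IsCoprime 𝔞 𝔣},
    ((χ (A 𝔞.1) : ℂˣ) : ℂ) * ((Ideal.absNorm 𝔞.1 : ℕ) : ℂ) ^ (-s)

/-- `∏_(v ∈ T) (1 - χ(A(v)) N(v)^(1 - s))`. -/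
noncomputable def tfac (T : Finset (Ideal (𝓞 K))) (A : Ideal (𝓞 K) → G) (χ : G →* ℂˣ) (s : ℂ) :
    ℂ :=
  ∏ v ∈ T, (1 - ((χ (A v) : ℂˣ) : ℂ) * ((Ideal.absNorm v : ℕ) : ℂ) ^ (1 - s))

/-- `Θ(s) = ∑_g Θ(s)(g) g` is the continuation of the Stickelberger function `Θ_(S,T)(s) ∈ ℂ[G]`:
`χ(Θ(s)) = L_(S,T)(χ⁻¹, s)` for every character `χ` of `G`. -/
def IsStickelberger (𝔣 : Ideal (𝓞 K)) (T : Finset (Ideal (𝓞 K))) (A : Ideal (𝓞 K) → G)
    (Θ : ℂ → G → ℂ) : Prop :=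
  (∀ g s, MeromorphicAt (fun z => Θ z g) s) ∧ (∀ g, AnalyticAt ℂ (fun z => Θ z g) 0) ∧
    ∀ (χ : G →* ℂˣ) (s : ℂ), 1 < s.re →
      ∑ᶠ g : G, ((χ g : ℂˣ) : ℂ) * Θ s g = tfac T A χ⁻¹ s * lser 𝔣 A χ⁻¹ s

open Classical in
/-- `1 / k` if `𝔞 = 𝔭 ^ k` with a prime ideal `𝔭` and `k ≥ 1`, and `0` if `𝔞` is not such a power:
`log N(rad 𝔞) / log N(𝔞)`. -/
noncomputable def wt (𝔞 : Ideal (𝓞 K)) : ℝ :=
  if IsPrimePow 𝔞 then Real.log (Ideal.absNorm 𝔞.radical) / Real.log (Ideal.absNorm 𝔞) else 0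

/-- `(1 / k) e^(i γ u) / Γ(1 + u)`, `u = log N(𝔞) / T`, for `𝔞 = 𝔭 ^ k`. -/
noncomputable def term (γ T : ℝ) (𝔞 : Ideal (𝓞 K)) : ℂ :=
  (wt 𝔞 : ℂ) * Complex.exp ((γ * (Real.log (Ideal.absNorm 𝔞) / T) : ℝ) * Complex.I) *
    ((Real.Gamma (1 + Real.log (Ideal.absNorm 𝔞) / T))⁻¹ : ℝ)

/-- `S_τ(T)`: the sum over the powers of prime ideals prime to `𝔣` with `A(𝔭 ^ k) = τ`. -/
noncomputable def primeSum (𝔣 : Ideal (𝓞 K)) (A : Ideal (𝓞 K) → G) (τ : G) (γ T : ℝ) : ℂ :=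
  ∑' 𝔞 : {𝔞 : Ideal (𝓞 K) // IsCoprime 𝔞 𝔣 ∧ A 𝔞 = τ}, term γ T 𝔞.1

/-- `E_g(t) = (1 / |G|) ∑_χ conj χ(g) ∏_(v ∈ T) (1 - χ⁻¹(A(v)) N(v)) exp (∑_τ χ⁻¹(τ) S_τ(t))`, `χ` the
characters of `G`. -/
noncomputable def approx (𝔣 : Ideal (𝓞 K)) (T : Finset (Ideal (𝓞 K)))
    (A : Ideal (𝓞 K) → G) (g : G) (γ t : ℝ) : ℂ :=
  (Nat.card G : ℂ)⁻¹ *
    ∑ᶠ χ : G →* ℂˣ, (starRingEnd ℂ) ((χ g : ℂˣ) : ℂ) * tfac T A χ⁻¹ 0 *
      Complex.exp (∑ᶠ τ : G, ((χ⁻¹ τ : ℂˣ) : ℂ) * primeSum 𝔣 A τ γ t)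

end defs

section proofs

variable {K : Type} [Field K] [NumberField K]

open Classical in
lemma term_eq (γ T : ℝ) (𝔞 : Ideal (𝓞 K)) : term γ T 𝔞 = Run7.h767.ST.tm γ T 𝔞 := by
  have h : (wt 𝔞 : ℝ) = Pool.Agent.Y773.VM 𝔞 / Run7.h767.ST.lg 𝔞 := by
    unfold wt Pool.Agent.Y773.VM Run7.h767.ST.lg
    split_ifs
    · rfl
    · rw [zero_div]
  unfold term
  rw [h]
  rfl

lemma approx_eq {G : Type} [Group G] (𝔣 : Ideal (𝓞 K)) (T : Finset (Ideal (𝓞 K)))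
    (A : Ideal (𝓞 K) → G) (g : G) (γ t : ℝ) :
    approx 𝔣 T A g γ t = Run7.h767.ST.apT 0 𝔣 T A g γ t := by
  have h : ∀ τ : G, primeSum 𝔣 A τ γ t = Run7.h767.ST.SG 𝔣 A τ γ t := by
    intro τ
    unfold primeSum Run7.h767.ST.SG
    exact tsum_congr fun 𝔞 => term_eq γ t 𝔞.1
  unfold approx Run7.h767.ST.apT
  simp only [h, Nat.cast_zero, zero_mul, neg_zero, Complex.exp_zero, pow_zero, one_mul]
  rfl

lemma tendsto_of_isBigO {f : ℝ → ℂ} {c : ℂ}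
    (h : (fun T : ℝ => f T - c) =O[atTop] fun T : ℝ => 1 / T) : Tendsto f atTop (𝓝 c) := by
  have h1 : Tendsto (fun T : ℝ => f T - c) atTop (𝓝 0) :=
    h.trans_tendsto (tendsto_const_nhds.div_atTop tendsto_id)
  have h2 := h1.add_const c
  simpa using h2

lemma round_of_tendsto {f : ℝ → ℂ} {m : ℤ} (h : Tendsto f atTop (𝓝 (m : ℂ))) :
    ∀ᶠ t in atTop, round (f t).re = m := by
  have h1 : Tendsto (fun t => (f t).re) atTop (𝓝 (m : ℝ)) := by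
    have h2 := (Complex.continuous_re.tendsto (m : ℂ)).comp h
    rw [Complex.intCast_re] at h2
    exact h2
  filter_upwards [Metric.tendsto_nhds.1 h1 (1 / 2) (by norm_num)] with t ht
  rw [Real.dist_eq, abs_lt] at ht
  rw [round_eq, Int.floor_eq_iff]
  constructor <;> linarith [ht.1, ht.2]

end proofs

/-- See the header. -/
theorem result (K : Type) [Field K] [NumberField K] (P : Set (K →+* ℝ)) (𝔣 : Ideal (𝓞 K))
    (hbot : 𝔣 ≠ ⊥) (htop : 𝔣 ≠ ⊤) (G : Type) [Group G] [Finite G] (hG : ∀ a b : G, a * b = b * a)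
    (A : Ideal (𝓞 K) → G) (hA : IsRayHom 𝔣 P A) (T : Finset (Ideal (𝓞 K)))
    (hT : ∀ v ∈ T, v.IsPrime ∧ v ≠ ⊥ ∧ IsCoprime v 𝔣) :
    -- (1) the continuation
    (∃ Θ, IsStickelberger 𝔣 T A Θ) ∧
    ∀ Θ, IsStickelberger 𝔣 T A Θ → ∀ γ : ℝ, Real.pi / 2 < γ →
      -- (2) the coefficients of the Stickelberger element
      (∀ t > 0, Summable fun 𝔞 : Ideal (𝓞 K) => ‖term γ t 𝔞‖) ∧
      (∀ g : G, (fun t : ℝ => approx 𝔣 T A g γ t - Θ 0 g) =O[atTop] fun t : ℝ => 1 / t) ∧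
      -- (3) integral coefficients
      ∀ a : G → ℤ, ((∀ g, Θ 0 g = a g) → ∀ᶠ t in atTop, ∀ g, round (approx 𝔣 T A g γ t).re = a g) ∧
        ∀ l : Filter ℝ, l.NeBot → l ≤ atTop →
          ((∀ g, Θ 0 g = a g) ↔ ∀ g, Tendsto (approx 𝔣 T A g γ) l (𝓝 (a g : ℂ))) := by
  have hT' : ∀ v ∈ T, v.IsPrime ∧ v ≠ ⊥ := fun v hv => ⟨(hT v hv).1, (hT v hv).2.1⟩
  have hA' : Run7.h767.ST.IsArt 𝔣 P A := ⟨hA.mul, hA.ray⟩
  refine ⟨Run7.h767.ST.exists_Th hbot htop hG hA' hT', fun Θ hΘ γ hγ => ?_⟩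
  have key : ∀ g : G, (fun t : ℝ => approx 𝔣 T A g γ t - Θ 0 g) =O[atTop] fun t : ℝ => 1 / t := by
    intro g
    obtain ⟨Q, hQ, hΘQ, h⟩ := Run7.h767.ST.theta_lead hbot htop hG hA' hT' 0
      (fun χ Z hZ => ⟨Z, hZ.2.1, Filter.Eventually.of_forall fun s => by rw [pow_zero, one_mul]⟩)
      hΘ g
    have h0 : Θ 0 g = Q 0 := by
      have := hΘQ.self_of_nhds
      rwa [pow_zero, one_mul] at this
    rw [h0]
    exact (h γ hγ).congr_left fun t => by rw [approx_eq]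
  have hlim : ∀ g : G, Tendsto (approx 𝔣 T A g γ) atTop (𝓝 (Θ 0 g)) := fun g =>
    tendsto_of_isBigO (key g)
  refine ⟨fun t ht => ?_, key, fun a => ⟨fun ha => ?_, fun l hl1 hl => ⟨fun ha g => ?_,
    fun ha g => ?_⟩⟩⟩
  · exact (Run7.h767.ST.tm_summable γ ht).congr fun 𝔞 => by rw [term_eq]
  · rw [Filter.eventually_all]
    intro g
    refine round_of_tendsto ?_
    rw [← ha g]
    exact hlim g
  · rw [← ha g]
    exact (hlim g).mono_left hl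
  · exact tendsto_nhds_unique ((hlim g).mono_left hl) (ha g)

end Pool.Agent.Results.MP_d2500c_nt.StickelbergerByPrimes
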